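import Mathlib
import Pool.Agent.Helper92.PU.St

/-!
Project PU, module LD2.
-/

namespace Pool.Agent.Helper95.PU

open Pool.Agent.Helper92.PU Pool.Agent.Helper92.PW

theorem absdiv {Y A B : ℝ} (hY : 27 / 16 ≤ Y) (h : Y * A = B) : |A| ≤ 16 / 27 * |B| := by
  have h1 : |B| = Y * |A| := by
    rw [← h, abs_mul, abs_of_nonneg (by linarith)]
  have h2 : 27 / 16 * |A| ≤ Y * |A| := mul_le_mul_of_nonneg_right hY (abs_nonneg A)
  rw [h1]
  linarith

theorem mulabs {a b A B : ℝ} (ha : |a| ≤ A) (hb : |b| ≤ B) : |a * b| ≤ A * B := by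
  rw [abs_mul]
  exact mul_le_mul ha hb (abs_nonneg b) (le_trans (abs_nonneg a) ha)

theorem addabs {a b A B : ℝ} (ha : |a| ≤ A) (hb : |b| ≤ B) : |a + b| ≤ A + B :=
  le_trans (abs_add_le a b) (add_le_add ha hb)

theorem subabs {a b A B : ℝ} (ha : |a| ≤ A) (hb : |b| ≤ B) : |a - b| ≤ A + B :=
  le_trans (abs_sub a b) (add_le_add ha hb)

theorem prodge {a b : ℝ} (ha : a ≤ -(3 / 4)) (hb : b ≤ -(3 / 4)) : 9 / 16 ≤ a * b := by
  nlinarith

/-- MODULE LD2. -/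
theorem hLD2 : StLD2 := by
  intro β lam δ x y e0 hβ hβ1 hl hl1 hδ hδ1 hx1 hxβ hy1 hy2 heq he0
  have hx0 : x < 0 := by linarith
  have hy0 : y < 0 := by linarith
  have hyne : y ≠ 0 := ne_of_lt hy0
  have hy2p : 0 < y ^ 2 := by positivity
  have hY : 27 / 16 ≤ 3 * y ^ 2 := by
    have := prodge hy2 hy2
    rw [sq]
    linarith
  have hax : |x| ≤ 1 := by rw [abs_le]; constructor <;> linarith
  have hay : |y| ≤ 1 := by rw [abs_le]; constructor <;> linarith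
  have hl2 : lam ^ 2 ≤ lam := by nlinarith
  have hl3 : lam ^ 3 ≤ lam ^ 2 := by nlinarith [sq_nonneg lam]
  have hl4 : lam ^ 4 ≤ lam ^ 3 := by nlinarith [pow_pos hl 3]
  have hl4p : 0 < lam ^ 4 := pow_pos hl 4
  obtain ⟨a1, ha1⟩ : ∃ a1, a1 = -x ^ 2 / y ^ 2 := ⟨_, rfl⟩
  obtain ⟨a2, ha2⟩ : ∃ a2, a2 = -(x + y * a1 ^ 2) / y ^ 2 := ⟨_, rfl⟩
  obtain ⟨a3, ha3⟩ : ∃ a3, a3 = -(1 + a1 ^ 3 + 6 * y * a1 * a2) / (3 * y ^ 2) := ⟨_, rfl⟩
  have e1 : y ^ 2 * a1 = -x ^ 2 := by rw [ha1]; field_simp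
  have e2 : y ^ 2 * a2 = -(x + y * a1 ^ 2) := by rw [ha2]; field_simp
  have e3 : 3 * y ^ 2 * a3 = -(1 + a1 ^ 3 + 6 * y * a1 * a2) := by rw [ha3]; field_simp
  have e4 : a2 * y ^ 5 = x * (1 - e0) := by
    have : a2 * y ^ 5 = (y ^ 2 * a2) * y ^ 3 := by ring
    rw [this, e2]
    have h1 : -(x + y * a1 ^ 2) * y ^ 3 = -x * y ^ 3 - (y ^ 2 * a1) ^ 2 := by ring
    rw [h1, e1]
    have h2 : x ^ 3 = -1 + e0 - y ^ 3 := by linarith
    have h3 : (-x ^ 2) ^ 2 = x * x ^ 3 := by ring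
    rw [h3, h2]
    ring
  have b1 : |a1| ≤ 16 / 9 := by
    have h1 : 3 * y ^ 2 * a1 = -3 * x ^ 2 := by linarith
    have h2 := absdiv hY h1
    have h3 : |-3 * x ^ 2| ≤ 3 := by
      rw [abs_le]
      constructor <;> nlinarith
    linarith
  have b1' : |a1 ^ 2| ≤ 256 / 81 := by
    have := mulabs b1 b1
    rw [sq]
    linarith
  have b1'' : |a1 ^ 3| ≤ 4096 / 729 := by
    have := mulabs b1' b1
    have h : a1 ^ 3 = a1 ^ 2 * a1 := by ring
    rw [h]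
    linarith
  have hyab : 3 / 4 ≤ |y| := by
    rw [abs_of_neg hy0]; linarith
  have hy5a : (3 / 4 : ℝ) ^ 5 ≤ |y| ^ 5 := pow_le_pow_left₀ (by norm_num) hyab 5
  have hy5b : |y| ^ 5 ≤ 1 := pow_le_one₀ (abs_nonneg y) hay
  have he0' := abs_le.1 he0
  have h1e : |1 - e0| = 1 - e0 := abs_of_nonneg (by linarith [he0'.2])
  have e5 : |a2| * |y| ^ 5 = |x| * (1 - e0) := by
    rw [← abs_pow, ← abs_mul, e4, abs_mul, h1e]
  have b2 : |a2| ≤ 32 / 5 := by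
    have h1 : |x| * (1 - e0) ≤ 3 / 2 := by
      have h0 : 1 - e0 ≤ 3 / 2 := by linarith [he0'.1]
      calc |x| * (1 - e0) ≤ 1 * (3 / 2) := mul_le_mul hax h0 (by linarith [he0'.2]) (by norm_num)
        _ = 3 / 2 := by norm_num
    have h2 : |a2| * (3 / 4 : ℝ) ^ 5 ≤ |a2| * |y| ^ 5 :=
      mul_le_mul_of_nonneg_left hy5a (abs_nonneg a2)
    norm_num at h2
    linarith
  have b2' : β / 2 ≤ |a2| := by
    have h1 : β / 2 ≤ |x| * (1 - e0) := by
      have h0 : 1 / 2 ≤ 1 - e0 := by linarith [he0'.2]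
      have h00 : β ≤ |x| := by rw [abs_of_neg hx0]; linarith
      calc β / 2 = β * (1 / 2) := by ring
        _ ≤ |x| * (1 - e0) := mul_le_mul h00 h0 (by norm_num) (abs_nonneg x)
    have h2 : |a2| * |y| ^ 5 ≤ |a2| * 1 := mul_le_mul_of_nonneg_left hy5b (abs_nonneg a2)
    linarith
  have ha2p : 0 < |a2| := by linarith
  have ha2n : a2 ≠ 0 := abs_pos.1 ha2p
  have b3 : |a3| ≤ 45 := by
    have h1 := absdiv hY e3
    have h2 : |-(1 + a1 ^ 3 + 6 * y * a1 * a2)| ≤ 1 + 4096 / 729 + 6 * 1 * (16 / 9) * (32 / 5) := by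
      rw [abs_neg]
      have h6 : |(6 : ℝ)| ≤ 6 := by norm_num
      have h11 : |(1 : ℝ)| ≤ 1 := by norm_num
      exact addabs (addabs h11 b1'') (mulabs (mulabs (mulabs h6 hay) b1) b2)
    linarith
  obtain ⟨c, hc⟩ : ∃ c, c = a3 / a2 := ⟨_, rfl⟩
  have ec : c * a2 = a3 := by rw [hc]; field_simp
  have bc : |c| ≤ 90 / β := by
    rw [hc, abs_div, div_le_div_iff₀ ha2p hβ]
    calc |a3| * β ≤ 45 * β := mul_le_mul_of_nonneg_right b3 hβ.le
      _ = 90 * (β / 2) := by ring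
      _ ≤ 90 * |a2| := by linarith
  refine ⟨a1, a2, c, ?_⟩
  intro t u e ht he hxt1 hxt2 hyu1 hyu2 hE
  have haxt : |x + t| ≤ 1 := by rw [abs_le]; constructor <;> linarith
  have hayu : |y + u| ≤ 1 := by rw [abs_le]; constructor <;> linarith
  have hX1 : |x ^ 2 + x * (x + t) + (x + t) ^ 2| ≤ 3 := by
    have h1 := mulabs hax hax
    have h2 := mulabs hax haxt
    have h3 := mulabs haxt haxt
    rw [sq, sq]
    have := addabs (addabs h1 h2) h3
    linarith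
  have hY1 : 27 / 16 ≤ y ^ 2 + y * (y + u) + (y + u) ^ 2 := by
    have h1 := prodge hy2 hy2
    have h2 := prodge hy2 hyu2
    have h3 := prodge hyu2 hyu2
    rw [sq, sq]
    linarith
  -- (a)
  have bu : |u| ≤ 12 / 5 * lam := by
    have h1 : (y ^ 2 + y * (y + u) + (y + u) ^ 2) * u =
        e - t * (x ^ 2 + x * (x + t) + (x + t) ^ 2) := by
      rw [← hE]; ring
    have h2 := absdiv hY1 h1
    have h3 := subabs he (mulabs ht hX1)
    linarith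
  have bu2 : |u ^ 2| ≤ 144 / 25 * lam ^ 2 := by
    have := mulabs bu bu
    rw [sq]
    calc |u * u| ≤ 12 / 5 * lam * (12 / 5 * lam) := this
      _ = 144 / 25 * lam ^ 2 := by ring
  have bu3 : |u ^ 3| ≤ 1728 / 125 * lam ^ 3 := by
    have := mulabs bu2 bu
    have h : u ^ 3 = u ^ 2 * u := by ring
    rw [h]
    calc |u ^ 2 * u| ≤ 144 / 25 * lam ^ 2 * (12 / 5 * lam) := this
      _ = 1728 / 125 * lam ^ 3 := by ring
  have bt2 : |t ^ 2| ≤ lam ^ 2 := by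
    have := mulabs ht ht
    rw [sq, sq lam]
    exact this
  have bt3 : |t ^ 3| ≤ lam ^ 3 := by
    have := mulabs bt2 ht
    have h : t ^ 3 = t ^ 2 * t := by ring
    rw [h]
    calc |t ^ 2 * t| ≤ lam ^ 2 * lam := this
      _ = lam ^ 3 := by ring
  obtain ⟨v, hv⟩ : ∃ v, v = u - a1 * t := ⟨_, rfl⟩
  rw [← hv]
  -- (b)
  have bv : |v| ≤ 127 / 10 * lam ^ 2 := by
    have h1 : 3 * y ^ 2 * v = e - t ^ 2 * (2 * x + (x + t)) - u ^ 2 * (2 * y + (y + u)) := by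
      have h0 : 3 * y ^ 2 * v = 3 * y ^ 2 * u - 3 * (y ^ 2 * a1) * t := by rw [hv]; ring
      rw [h0, e1, ← hE]
      ring
    have h2 := absdiv hY h1
    have h2' : |(2 : ℝ)| ≤ 2 := by norm_num
    have h3 : |2 * x + (x + t)| ≤ 3 := by
      have := addabs (mulabs h2' hax) haxt
      linarith
    have h4 : |2 * y + (y + u)| ≤ 3 := by
      have := addabs (mulabs h2' hay) hayu
      linarith
    have h5 := subabs (subabs he (mulabs bt2 h3)) (mulabs bu2 h4)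
    linarith
  have btv : |t * v| ≤ 127 / 10 * lam ^ 3 := by
    calc |t * v| ≤ lam * (127 / 10 * lam ^ 2) := mulabs ht bv
      _ = 127 / 10 * lam ^ 3 := by ring
  have bv2 : |v ^ 2| ≤ 162 * lam ^ 4 := by
    rw [sq]
    calc |v * v| ≤ 127 / 10 * lam ^ 2 * (127 / 10 * lam ^ 2) := mulabs bv bv
      _ = (127 / 10) * (127 / 10) * lam ^ 4 := by ring
      _ ≤ 162 * lam ^ 4 := by
        apply mul_le_mul_of_nonneg_right _ hl4p.le
        norm_num
  obtain ⟨ρ, hρ⟩ : ∃ ρ, ρ = v - a2 * t ^ 2 := ⟨_, rfl⟩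
  have ba1t : |a1 * t| ≤ 16 / 9 * lam := mulabs b1 ht
  have h3' : |(3 : ℝ)| ≤ 3 := by norm_num
  have eρ : 3 * y ^ 2 * ρ = e - t ^ 3 - u ^ 3 - 3 * y * (v * (u + a1 * t)) := by
    have h0 : 3 * y ^ 2 * ρ = 3 * y ^ 2 * u - 3 * (y ^ 2 * a1) * t - 3 * (y ^ 2 * a2) * t ^ 2 := by
      rw [hρ, hv]; ring
    rw [h0, e1, e2, ← hE, hv]
    ring
  -- (c)
  have bρ : |ρ| ≤ 105 * lam ^ 3 := by
    have h2 := absdiv hY eρ
    have h4 : |v * (u + a1 * t)| ≤ 127 / 10 * lam ^ 2 * (21 / 5 * lam) := by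
      apply mulabs bv
      have := addabs bu ba1t
      linarith
    have h5 := subabs (subabs (subabs he bt3) bu3) (mulabs (mulabs h3' hay) h4)
    have h6 : 3 * 1 * (127 / 10 * lam ^ 2 * (21 / 5 * lam)) = 3 * (127 / 10) * (21 / 5) * lam ^ 3 := by
      ring
    rw [h6] at h5
    have h7 : 0 < lam ^ 3 := pow_pos hl 3
    linarith
  -- (e)
  have b5 : |ρ - a3 * t ^ 3| ≤ δ + 1100 * lam ^ 4 := by
    have h1 : 3 * y ^ 2 * (ρ - a3 * t ^ 3) =
        e - v * (u ^ 2 + u * (a1 * t) + (a1 * t) * (a1 * t)) -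
          3 * y * (v ^ 2 + 2 * (a1 * t * ρ)) := by
      have h0 : 3 * y ^ 2 * (ρ - a3 * t ^ 3) = 3 * y ^ 2 * ρ - (3 * y ^ 2 * a3) * t ^ 3 := by ring
      rw [h0, eρ, e3, hρ, hv]
      ring
    have h2 := absdiv hY h1
    have h4 : |u ^ 2 + u * (a1 * t) + (a1 * t) * (a1 * t)| ≤ 66 / 5 * lam ^ 2 := by
      have h5 := addabs (addabs bu2 (mulabs bu ba1t)) (mulabs ba1t ba1t)
      have h6 : 144 / 25 * lam ^ 2 + 12 / 5 * lam * (16 / 9 * lam) + 16 / 9 * lam * (16 / 9 * lam) =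
          (144 / 25 + 12 / 5 * (16 / 9) + 16 / 9 * (16 / 9)) * lam ^ 2 := by ring
      rw [h6] at h5
      have h7 : 0 < lam ^ 2 := pow_pos hl 2
      linarith
    have h8 := mulabs bv h4
    have h2' : |(2 : ℝ)| ≤ 2 := by norm_num
    have h9 := addabs bv2 (mulabs h2' (mulabs ba1t bρ))
    have h10 := subabs (subabs he h8) (mulabs (mulabs h3' hay) h9)
    have h11 : δ + 127 / 10 * lam ^ 2 * (66 / 5 * lam ^ 2) +
        3 * 1 * (162 * lam ^ 4 + 2 * (16 / 9 * lam * (105 * lam ^ 3))) =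
        δ + (127 / 10 * (66 / 5) + 3 * (162 + 2 * (16 / 9 * 105))) * lam ^ 4 := by ring
    rw [h11] at h10
    linarith
  refine ⟨?_, ?_, ?_⟩
  · have h7 : 0 < lam ^ 3 := pow_pos hl 3
    linarith
  · have := (abs_le.1 bv2).2
    linarith
  · have h1 : v - a2 * t ^ 2 - c * (t * v) = (ρ - a3 * t ^ 3) - c * (t * ρ) := by
      rw [← ec, hρ]
      ring
    rw [h1]
    have h2 : |c * (t * ρ)| ≤ 90 / β * (lam * (105 * lam ^ 3)) := mulabs bc (mulabs ht bρ)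
    have h3 := subabs b5 h2
    have h4 : 90 / β * (lam * (105 * lam ^ 3)) = 9450 * (lam ^ 4 / β) := by
      field_simp
      ring
    have h5 : lam ^ 4 ≤ lam ^ 4 / β := by
      rw [le_div_iff₀ hβ]
      nlinarith
    have h6 : 20000 * lam ^ 4 / β = 20000 * (lam ^ 4 / β) := by ring
    rw [h4] at h3
    rw [h6]
    linarith

end Pool.Agent.Helper95.PU
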